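import Pool.Agent.Helper52.SG.Goals2

/-!
# Project SG, packet MC4
-/

set_option autoImplicit false

namespace Pool.Agent.Helper30.SG.MC4

open Subgroup Pool.Agent.Helper52.SG

variable {G : Type} [Group G]

theorem mem_ZS {P : Subgroup G} {z : G} : z ∈ ZS P ↔ z ∈ P ∧ ∀ x ∈ P, x * z = z * x := by
  rw [ZS, mem_inf, mem_centralizer_iff]
  exact Iff.rfl

theorem conj_ZS {T : Subgroup G} (hT : T.Normal) {z : G} (hz : z ∈ ZS T) (g : G) :
    g * z * g⁻¹ ∈ ZS T := by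
  rw [mem_ZS] at hz ⊢
  refine ⟨hT.conj_mem z hz.1 g, fun x hx => ?_⟩
  have h1 : g⁻¹ * x * g⁻¹⁻¹ ∈ T := hT.conj_mem x hx g⁻¹
  have h2 := hz.2 _ h1
  calc x * (g * z * g⁻¹) = g * (g⁻¹ * x * g⁻¹⁻¹ * z) * g⁻¹ := by group
    _ = g * (z * (g⁻¹ * x * g⁻¹⁻¹)) * g⁻¹ := by rw [h2]
    _ = g * z * g⁻¹ * x := by group

theorem t (hZP : S_ZP) (hCD2 : S_CD2) (hMC2 : S_MC2) : S_MC4 := by
  intro G _ r P T K h tk k hk hV
  have hfin := h.fin
  have hr := h.hr
  have hf : Fact r.Prime := ⟨hr⟩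
  obtain ⟨hTP, hmax, hcT, hKP⟩ := hMC2 G r P T K h tk
  obtain ⟨hTn, hTr, hTm⟩ := tk.or
  -- (a)
  have ha1 : centralizer ((ZS P : Subgroup G) : Set G) ≠ ⊤ := by
    intro he
    have := h.hZ
    rw [he] at this
    exact h.bad this
  have ha2 : P ≤ centralizer ((ZS P : Subgroup G) : Set G) := by
    intro x hx
    rw [mem_centralizer_iff]
    intro z hz
    exact ((mem_ZS.1 hz).2 x hx).symm
  have ha := hmax _ ha2 ha1
  -- (b)
  have hb : ZS P ≤ ZS T := by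
    intro z hz
    have h1 : z ∈ centralizer (T : Set G) := by
      rw [mem_centralizer_iff]
      intro x hx
      exact (mem_ZS.1 hz).2 x (hTP hx)
    exact ⟨hcT h1, h1⟩
  -- (c)
  have hc : centralizer ((ZS T : Subgroup G) : Set G) ≤ T := by
    have hle : centralizer ((ZS T : Subgroup G) : Set G) ≤ P := by
      rw [← ha]
      exact centralizer_le hb
    refine hTm _ ⟨fun c hc g => ?_⟩ (h.pg.to_le hle)
    rw [mem_centralizer_iff] at hc ⊢
    intro z hz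
    have h1 := conj_ZS hTn hz g⁻¹
    have h2 := hc _ h1
    calc z * (g * c * g⁻¹) = g * (g⁻¹ * z * g⁻¹⁻¹ * c) * g⁻¹ := by group
      _ = g * (c * (g⁻¹ * z * g⁻¹⁻¹)) * g⁻¹ := by rw [h2]
      _ = g * c * g⁻¹ * z := by group
  -- (d)
  obtain ⟨n, m, hm, hnm⟩ := Nat.exists_eq_pow_mul_and_not_dvd (n := orderOf k)
    (orderOf_pos k).ne' r hr.ne_one
  set k₀ : G := k ^ r ^ n with hk₀
  have hord : orderOf k₀ = m := by
    rw [hk₀, orderOf_pow, hnm, Nat.gcd_eq_right (dvd_mul_right _ _),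
      Nat.mul_div_cancel_left _ (pow_pos hr.pos _)]
  have hZr : IsPGroup r (ZS T) := hTr.to_le inf_le_left
  have hcop : (Nat.card (ZS T)).Coprime (Nat.card (zpowers k₀)) := by
    obtain ⟨j, hj⟩ := IsPGroup.iff_card.1 hZr
    rw [hj, Nat.card_zpowers, hord]
    exact ((Nat.Prime.coprime_iff_not_dvd hr).2 hm).pow_left j
  have hcomm : ∀ z ∈ ZS T, z ^ r = 1 → ∀ q ∈ zpowers k₀, z * q = q * z := by
    intro z hz hzr q hq
    have h1 : Commute z k := (hV z hz hzr).symm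
    obtain ⟨j, rfl⟩ := mem_zpowers_iff.1 hq
    exact (h1.pow_right _).zpow_right _
  have hCD := hCD2 G (ZS T) (zpowers k₀) (Set.toFinite _) (Set.toFinite _)
    (fun x hx y hy => ((mem_ZS.1 hy).2 x hx.1))
    (fun q _ v hv => by
      have := conj_ZS hTn hv q⁻¹
      rwa [inv_inv] at this) hcop
  set Y := closure {x : G | ∃ w ∈ ZS T, ∃ q ∈ zpowers k₀, x = w⁻¹ * (q⁻¹ * w * q)} with hY
  have hYle : Y ≤ ZS T := by
    rw [hY, closure_le]
    rintro x ⟨w, hw, q, hq, rfl⟩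
    have := conj_ZS hTn hw q⁻¹
    rw [inv_inv] at this
    exact mul_mem (inv_mem hw) this
  have hYbot : ∀ y ∈ Y, y = 1 := by
    intro y hy
    by_contra hy1
    obtain ⟨j, hj⟩ := hZr ⟨y, hYle hy⟩
    have hj' : y ^ r ^ j = 1 := by
      have := congrArg Subtype.val hj
      exact this
    obtain ⟨l, hl⟩ : ∃ l, orderOf y = r ^ l := (Nat.dvd_prime_pow hr).1
      (orderOf_dvd_of_pow_eq_one hj') |>.imp fun _ h => h.2
    have hl0 : l ≠ 0 := by
      rintro rfl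
      rw [pow_zero, orderOf_eq_one_iff] at hl
      exact hy1 hl
    obtain ⟨l, rfl⟩ := Nat.exists_eq_succ_of_ne_zero hl0
    set z := y ^ r ^ l with hz
    have hzr : z ^ r = 1 := by
      rw [hz, ← pow_mul, ← pow_succ, ← hl, pow_orderOf_eq_one]
    have hz1 : z = 1 := hCD z (pow_mem hy _) (hcomm z (hYle (pow_mem hy _)) hzr)
    have h1 : orderOf y ∣ r ^ l := orderOf_dvd_of_pow_eq_one hz1
    rw [hl] at h1
    have h2 := (Nat.pow_dvd_pow_iff_le_right hr.one_lt).1 h1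
    omega
  have hk₀C : k₀ ∈ centralizer ((ZS T : Subgroup G) : Set G) := by
    rw [mem_centralizer_iff]
    intro w hw
    have h1 := hYbot _ (subset_closure ⟨w, hw, k₀, mem_zpowers _, rfl⟩)
    have h2 : w = k₀⁻¹ * w * k₀ := inv_mul_eq_one.1 h1
    calc w * k₀ = k₀ * (k₀⁻¹ * w * k₀) := by group
      _ = k₀ * w := by rw [← h2]
  have hk₀T := hc hk₀C
  have hm1 : m = 1 := by
    obtain ⟨j, hj⟩ := hTr ⟨k₀, hk₀T⟩
    have hj' : k₀ ^ r ^ j = 1 := congrArg Subtype.val hj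
    obtain ⟨l, hl⟩ : ∃ l, orderOf k₀ = r ^ l := (Nat.dvd_prime_pow hr).1
      (orderOf_dvd_of_pow_eq_one hj') |>.imp fun _ h => h.2
    rw [hord] at hl
    rcases Nat.eq_zero_or_pos l with rfl | hl0
    · rw [hl, pow_zero]
    · exact absurd (hl ▸ dvd_pow_self r hl0.ne') hm
  obtain ⟨m', hm', hkm⟩ := tk.pr k hk
  have hcp : (orderOf k).Coprime m' := by
    rw [hnm, hm1, mul_one]
    exact ((Nat.Prime.coprime_iff_not_dvd hr).2 hm').pow_left n
  obtain ⟨j, hj⟩ := exists_pow_eq_self_of_coprime hcp.symm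
  rw [← hj]
  exact pow_mem hkm _

end Pool.Agent.Helper30.SG.MC4
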